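import Pool.Agent.Helper48.CR.Goals

/-!
# Packet BLKP (MP_69be96_nt, helper48): blocks of the hybrid random sieve
-/

set_option autoImplicit false

open Finset Filter Topology MeasureTheory ProbabilityTheory
open Pool.Agent.Helper60.BFT (root cls Av Adapted Uni LAWG)

namespace Pool.Agent.Helper69.CR

open Pool.Agent.Helper48.CR

lemma root_block (K r n : ℕ) (hK : 1 ≤ K) (h1 : r ^ K ≤ n) (h2 : n < (r + 1) ^ K) :
    root K n = r := by
  unfold Pool.Agent.Helper60.BFT.root
  rw [Nat.findGreatest_eq_iff]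
  refine ⟨?_, fun _ => h1, ?_⟩
  · exact (Nat.le_self_pow (by omega) r).trans h1
  · intro m hm _ h
    have : (r + 1) ^ K ≤ m ^ K := Nat.pow_le_pow_left hm K
    omega

lemma cls_block (K r n : ℕ) (hK : 1 ≤ K) (h1 : r ^ K ≤ n) (h2 : n < (r + 1) ^ K)
    (β : ℕ → ℕ → (ℕ → ℕ) → ℕ) (a : ℕ → ℕ) (p : ℕ) :
    cls K β a n p = if p ≤ r then β r p a else a p := by
  unfold Pool.Agent.Helper60.BFT.cls
  rw [root_block K r n hK h1 h2]

lemma mem_pr (r z p : ℕ) : p ∈ pr r z ↔ (r < p ∧ p ≤ z) ∧ p.Prime := by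
  unfold pr
  rw [Finset.mem_filter, Finset.mem_Ioc]

/-- the window is inside the window of length `yr` -/
lemma window (K : ℕ) (c : ℝ) (hc : 0 < c) (r n m : ℕ) (hr : 1 ≤ r) (h1 : r ^ K ≤ n)
    (h2 : n + yr K c r + 1 < (r + 1) ^ K) (hm : (m : ℝ) < n + 1 + c * Real.log n ^ 2) :
    m < n + yr K c r := by
  have hn1 : 1 ≤ n := (Nat.one_le_pow _ _ hr).trans h1
  have hn0 : (0 : ℝ) < n := by exact_mod_cast hn1
  have hlt : n < (r + 1) ^ K := by omega
  have h3 : Real.log n ≤ Real.log (((r + 1) ^ K : ℕ) : ℝ) :=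
    Real.log_le_log hn0 (by exact_mod_cast hlt.le)
  have h4 : 0 ≤ Real.log n := Real.log_nonneg (by exact_mod_cast hn1)
  have h5 : Real.log n ^ 2 ≤ Real.log (((r + 1) ^ K : ℕ) : ℝ) ^ 2 := pow_le_pow_left₀ h4 h3 2
  have h6 : c * Real.log n ^ 2 ≤ (⌈c * Real.log (((r + 1) ^ K : ℕ) : ℝ) ^ 2⌉₊ : ℝ) :=
    (mul_le_mul_of_nonneg_left h5 hc.le).trans (Nat.le_ceil _)
  have h7 : (m : ℝ) < ((n + yr K c r : ℕ) : ℝ) := by
    unfold yr
    push_cast at h6 ⊢
    linarith
  exact_mod_cast h7

theorem blkp : BLKPG := by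
  classical
  refine ⟨?_, ?_⟩
  · intro K Z β hK hZ hβ c hc r M hr hrZ a b hab n hGd hev
    obtain ⟨hG1, hG2, hG3, _⟩ := hGd
    have hn2 : n < (r + 1) ^ K := by omega
    have hβab : ∀ p, p ≤ r → β r p b = β r p a := by
      intro p hp
      refine hβ r p hp b a ?_
      intro q hq
      refine hab q ?_
      rw [mem_pr]
      rintro ⟨⟨h, _⟩, _⟩
      omega
    have hev' : (∀ p ∈ pr r (Z ((r + 1) ^ K)), ∀ s ∈ ({n} : Finset ℕ), ¬ s ≡ b p [MOD p]) ∧
        (∀ x ∈ sv r (fun p => β r p a) (yr K c r) n, ∃ p ∈ pr r (Z (r ^ K)), x ≡ b p [MOD p]) := by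
      by_contra hcon
      unfold ev at hev
      rw [if_neg hcon] at hev
      exact zero_ne_one hev
    refine ⟨?_, ?_⟩
    · intro p hp hpZ
      rw [cls_block K r n hK hG1 hn2]
      by_cases hpr : p ≤ r
      · rw [if_pos hpr, hβab p hpr]
        exact hG3 p hpr hp
      · rw [if_neg hpr]
        refine hev'.1 p ?_ n (Finset.mem_singleton_self n)
        rw [mem_pr]
        exact ⟨⟨by omega, hpZ.trans (hZ hn2.le)⟩, hp⟩
    · intro m hnm hm hMem
      have hmy : m < n + yr K c r := window K c hc r n m hr hG1 hG2 hm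
      have hm1 : r ^ K ≤ m := by omega
      have hm2 : m < (r + 1) ^ K := by omega
      by_cases hex : ∃ p : ℕ, p ≤ r ∧ p.Prime ∧ m ≡ β r p a [MOD p]
      · obtain ⟨p, hpr, hp, hpm⟩ := hex
        have h := hMem p hp ((hpr.trans hrZ).trans (hZ hm1))
        rw [cls_block K r m hK hm1 hm2, if_pos hpr, hβab p hpr] at h
        exact h hpm
      · have hsv : m ∈ sv r (fun p => β r p a) (yr K c r) n := by
          unfold sv
          rw [Finset.mem_filter, Finset.mem_Ioc]
          refine ⟨⟨hnm, hmy.le⟩, ?_⟩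
          intro p hpr hp hpm
          exact hex ⟨p, hpr, hp, hpm⟩
        obtain ⟨p, hp, hpm⟩ := hev'.2 m hsv
        rw [mem_pr] at hp
        have h := hMem p hp.2 (hp.1.2.trans (hZ hm1))
        have hpr : ¬ p ≤ r := by omega
        rw [cls_block K r m hK hm1 hm2, if_neg hpr] at h
        exact h hpm
  · intro K Z β hK hZ hβ c hc r hr a a' haa
    have hmem : ∀ m, r ^ K ≤ m → m < (r + 1) ^ K → (Mem K Z β a m ↔ Mem K Z β a' m) := by
      intro m hm1 hm2
      have hcl : ∀ p, p ≤ Z m → cls K β a m p = cls K β a' m p := by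
        intro p hp
        rw [cls_block K r m hK hm1 hm2, cls_block K r m hK hm1 hm2]
        by_cases hpr : p ≤ r
        · rw [if_pos hpr, if_pos hpr]
          exact hβ r p hpr a a' (fun q hq => haa q (hq.trans (le_max_left _ _)))
        · rw [if_neg hpr, if_neg hpr]
          exact haa p ((hp.trans (hZ hm2.le)).trans (le_max_right _ _))
      constructor
      · intro h p hp hpZ
        rw [← hcl p hpZ]
        exact h p hp hpZ
      · intro h p hp hpZ
        rw [hcl p hpZ]
        exact h p hp hpZ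
    unfold BC
    refine congrArg Finset.card (Finset.filter_congr ?_)
    intro n hn
    rw [Finset.mem_Ico] at hn
    refine and_congr_right ?_
    intro hny
    have hn2 : n < (r + 1) ^ K := by omega
    unfold Bg
    refine and_congr (hmem n hn.1 hn2) ?_
    refine forall_congr' fun m => ?_
    refine forall_congr' fun hnm => ?_
    refine forall_congr' fun hm => ?_
    have hmy : m < n + yr K c r := window K c hc r n m hr hn.1 hny hm
    have hm1 : r ^ K ≤ m := by omega
    have hm2 : m < (r + 1) ^ K := by omega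
    exact not_congr (hmem m hm1 hm2)

end Pool.Agent.Helper69.CR
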