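import Pool.Agent.Helper85.CR.Goals

/-!
Packet CR-DEXT (project CR, MP_bdaf95_co): degrees after attaching a layer.
-/

set_option autoImplicit false

namespace Pool.Agent.Helper69.CR

open Pool.Agent.Helper85.CR

section
variable {V : Type} (G : SimpleGraph V) (ρ : Fin 4 → V) {t : ℕ}
  (up : Fin 4 → Fin t → Bool) (nn : Fin t → Fin t → Bool)

lemma adj_ll (u v : V) : (ext G ρ up nn).Adj (Sum.inl u) (Sum.inl v) ↔ G.Adj u v := by
  simp only [ext, SimpleGraph.fromRel_adj]
  constructor
  · rintro ⟨-, h | h⟩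
    · exact h
    · exact h.symm
  · intro h
    exact ⟨fun h2 => h.ne (Sum.inl_injective h2), Or.inl h⟩

lemma adj_lr (u : V) (j : Fin t) : (ext G ρ up nn).Adj (Sum.inl u) (Sum.inr j) ↔
    ∃ i, ρ i = u ∧ up i j = true := by
  simp only [ext, SimpleGraph.fromRel_adj]
  constructor
  · rintro ⟨-, h | h⟩
    · exact h
    · exact h.elim
  · intro h
    exact ⟨Sum.inl_ne_inr, Or.inl h⟩

lemma adj_rl (u : V) (j : Fin t) : (ext G ρ up nn).Adj (Sum.inr j) (Sum.inl u) ↔
    ∃ i, ρ i = u ∧ up i j = true := by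
  rw [SimpleGraph.adj_comm]
  exact adj_lr G ρ up nn u j

lemma adj_rr (hs : ∀ i j, nn i j = nn j i) (hi : ∀ i, nn i i = false) (i j : Fin t) :
    (ext G ρ up nn).Adj (Sum.inr i) (Sum.inr j) ↔ nn i j = true := by
  simp only [ext, SimpleGraph.fromRel_adj]
  constructor
  · rintro ⟨-, h | h⟩
    · exact h
    · rw [hs]; exact h
  · intro h
    refine ⟨fun h2 => ?_, Or.inl h⟩
    have h3 := Sum.inr_injective h2
    rw [h3, hi] at h
    exact Bool.noConfusion h

end

lemma ncard_filter {α : Type} [Fintype α] (p : α → Bool) :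
    ({i | p i = true} : Set α).ncard = (Finset.univ.filter fun i => p i = true).card := by
  rw [← Set.ncard_coe_finset]
  congr 1
  ext i
  simp

theorem gDEXT : Pool.Agent.Helper85.CR.StmtDEXT := by
  intro V _ G ρ t up nn hρ hs hi
  have key : ∀ (A : Set V) (B : Set (Fin t)),
      (Sum.inl '' A ∪ Sum.inr '' B : Set (V ⊕ Fin t)).ncard = A.ncard + B.ncard := by
    intro A B
    rw [Set.ncard_union_eq _ (Set.toFinite _) (Set.toFinite _),
      Set.ncard_image_of_injective _ Sum.inl_injective,
      Set.ncard_image_of_injective _ Sum.inr_injective]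
    rw [Set.disjoint_left]
    rintro x ⟨a, -, rfl⟩ ⟨b, -, hb⟩
    exact Sum.inr_ne_inl hb
  have hl : ∀ v : V, (ext G ρ up nn).neighborSet (Sum.inl v) =
      Sum.inl '' G.neighborSet v ∪ Sum.inr '' {j | ∃ i, ρ i = v ∧ up i j = true} := by
    intro v
    ext x
    rcases x with u | j
    · rw [SimpleGraph.mem_neighborSet, adj_ll]
      constructor
      · intro h
        exact Or.inl ⟨u, h, rfl⟩
      · rintro (⟨a, ha, hau⟩ | ⟨a, -, ha⟩)
        · rw [← Sum.inl_injective hau]
          exact ha
        · exact absurd ha Sum.inr_ne_inl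
    · rw [SimpleGraph.mem_neighborSet, adj_lr]
      constructor
      · intro h
        exact Or.inr ⟨j, h, rfl⟩
      · rintro (⟨a, -, ha⟩ | ⟨a, ha, haj⟩)
        · exact absurd ha Sum.inl_ne_inr
        · rw [← Sum.inr_injective haj]
          exact ha
  refine ⟨fun v hv => ?_, fun i => ?_, fun j => ?_⟩
  · unfold deg
    rw [hl v, key]
    have : {j : Fin t | ∃ i, ρ i = v ∧ up i j = true} = ∅ := by
      ext j
      simp only [Set.mem_ofPred_eq, Set.mem_empty_iff_false, iff_false]
      rintro ⟨i, hiv, -⟩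
      exact hv i hiv.symm
    rw [this, Set.ncard_empty, add_zero]
  · unfold deg
    rw [hl (ρ i), key, ← ncard_filter (fun j => up i j)]
    congr 2
    ext j
    simp only [Set.mem_ofPred_eq]
    constructor
    · rintro ⟨i', h1, h2⟩
      rw [hρ h1] at h2
      exact h2
    · intro h
      exact ⟨i, rfl, h⟩
  · unfold deg ndeg
    have h : (ext G ρ up nn).neighborSet (Sum.inr j) =
        Sum.inl '' (ρ '' {i | up i j = true}) ∪ Sum.inr '' {i | nn i j = true} := by
      ext x
      rcases x with u | i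
      · rw [SimpleGraph.mem_neighborSet, adj_rl]
        constructor
        · rintro ⟨i, rfl, h⟩
          exact Or.inl ⟨ρ i, ⟨i, h, rfl⟩, rfl⟩
        · rintro (⟨a, ⟨i, h, rfl⟩, ha⟩ | ⟨a, -, ha⟩)
          · exact ⟨i, Sum.inl_injective ha, h⟩
          · exact absurd ha Sum.inr_ne_inl
      · rw [SimpleGraph.mem_neighborSet, adj_rr G ρ up nn hs hi, hs]
        constructor
        · intro h
          exact Or.inr ⟨i, h, rfl⟩
        · rintro (⟨a, -, ha⟩ | ⟨a, h, ha⟩)
          · exact absurd ha Sum.inl_ne_inr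
          · rw [← Sum.inr_injective ha]
            exact h
    rw [h, key, Set.ncard_image_of_injective _ hρ, ncard_filter (fun i => up i j),
      ncard_filter (fun i => nn i j)]

end Pool.Agent.Helper69.CR
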